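import Pool.Agent.Lib.MP_5fb7d4_co.Main

/-!
MP_5fb7d4_co: for every regular icosahedron or dodecahedron K (any size and position), the scale
factors of the passages through K are exactly the numbers in the open interval from 0 to the root.
-/

set_option autoImplicit false

namespace Pool.Agent.Results.MP_5fb7d4_co.Exact

open Matrix Pool.Agent.Lib.MP_5fb7d4_co

/-- The orthogonal projection `(x, y, z) ↦ (x, y)`. -/
def proj (x : Fin 3 → ℝ) : Fin 2 → ℝ := ![x 0, x 1]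

/-- `l K` passes through `K`. -/
def Passes (l : ℝ) (K : Set (Fin 3 → ℝ)) : Prop :=
  ∃ R₁ ∈ Matrix.specialOrthogonalGroup (Fin 3) ℝ, ∃ R₂ ∈ Matrix.specialOrthogonalGroup (Fin 3) ℝ,
    ∃ t : Fin 2 → ℝ, (fun y => y + t) '' (proj '' ((fun x => l • R₁ *ᵥ x) '' K)) ⊆
      interior (proj '' ((fun x => R₂ *ᵥ x) '' K))

/-- `K` is the image of the convex hull of `V` under a similarity of Euclidean space. -/
def IsSimilarHull (V K : Set (Fin 3 → ℝ)) : Prop :=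
  ∃ r : ℝ, 0 < r ∧ ∃ g ∈ Matrix.orthogonalGroup (Fin 3) ℝ, ∃ a : Fin 3 → ℝ,
    K = (fun x => r • g *ᵥ x + a) '' convexHull ℝ V

/-- The cyclic permutations of the coordinates of `(0, p, q)`, with all signs. -/
def cyc (p q : ℝ) : Set (Fin 3 → ℝ) :=
  {v | ∃ s ∈ ({1, -1} : Set ℝ), ∃ t ∈ ({1, -1} : Set ℝ),
    v = ![0, s * p, t * q] ∨ v = ![s * p, t * q, 0] ∨ v = ![t * q, 0, s * p]}

/-- The vertices `(±1, ±1, ±1)` of the cube. -/
def cube : Set (Fin 3 → ℝ) := {v | ∀ i, v i = 1 ∨ v i = -1}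

/-- Regular icosahedra. -/
def IsIcosahedron (K : Set (Fin 3 → ℝ)) : Prop := IsSimilarHull (cyc 1 Real.goldenRatio) K

/-- Regular dodecahedra. -/
def IsDodecahedron (K : Set (Fin 3 → ℝ)) : Prop :=
  IsSimilarHull (cube ∪ cyc Real.goldenRatio⁻¹ Real.goldenRatio) K

/-- The polynomial of the problem. -/
def P (x : ℝ) : ℝ := 2025 * x ^ 8 - 11970 * x ^ 6 + 17009 * x ^ 4 - 9000 * x ^ 2 + 2000

theorem root_unique {x y : ℝ} (hx : x ∈ Set.Icc (1.01 : ℝ) 1.02) (hy : y ∈ Set.Icc (1.01 : ℝ) 1.02)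
    (h : P x = P y) : x = y := by
  obtain ⟨x1, x2⟩ := hx
  obtain ⟨y1, y2⟩ := hy
  obtain ⟨s, hs⟩ : ∃ s, s = x ^ 2 := ⟨_, rfl⟩
  obtain ⟨t, ht⟩ : ∃ t, t = y ^ 2 := ⟨_, rfl⟩
  have s1 : 1.0201 ≤ s := by nlinarith
  have s2 : s ≤ 1.0404 := by nlinarith
  have t1 : 1.0201 ≤ t := by nlinarith
  have t2 : t ≤ 1.0404 := by nlinarith
  have e : (s - t) * (2025 * (s * (s * s) + t * (s * s) + s * (t * t) + t * (t * t)) -
      11970 * (s * s + s * t + t * t) + 17009 * (s + t) - 9000) = 0 := by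
    unfold P at h
    rw [hs, ht]
    linear_combination h
  have a1 : s * s ≤ 1.0825 := by nlinarith
  have a2 : t * t ≤ 1.0825 := by nlinarith
  have b1 : 1.0406 ≤ s * s := by nlinarith
  have b2 : 1.0406 ≤ t * t := by nlinarith
  have b3 : 1.0406 ≤ s * t := by nlinarith
  have c1 : s * (s * s) ≤ 1.1263 := by nlinarith
  have c2 : t * (s * s) ≤ 1.1263 := by nlinarith
  have c3 : s * (t * t) ≤ 1.1263 := by nlinarith
  have c4 : t * (t * t) ≤ 1.1263 := by nlinarith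
  rcases mul_eq_zero.1 e with e | e
  · have e2 : (x - y) * (x + y) = 0 := by rw [hs, ht] at e; linear_combination e
    rcases mul_eq_zero.1 e2 with e2 | e2
    · linarith
    · linarith
  · linarith

theorem pass_open {V : Set V3} (hV : V.Finite) {c : ℝ} (hc : c ∈ Pass V) :
    ∃ c' ∈ Pass V, c < c' := by
  obtain ⟨c0, A, hA, B, hB, w, h⟩ := hc
  obtain ⟨U, hU⟩ : ∃ U, U = interior ((fun x : Fin 3 → ℝ => ![(B.mulVec x) 0, (B.mulVec x) 1]) ''
    convexHull ℝ V) := ⟨_, rfl⟩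
  rw [← hU] at h
  have lin : ∀ M : M3, IsLinearMap ℝ fun x : Fin 3 → ℝ => ![(M.mulVec x) 0, (M.mulVec x) 1] := by
    intro M
    constructor
    · intro x y
      ext i
      fin_cases i <;> simp [Matrix.mulVec_add]
    · intro r x
      ext i
      fin_cases i <;> simp [Matrix.mulVec_smul]
  have Uo : IsOpen U := hU ▸ isOpen_interior
  have Uc : Convex ℝ U := hU ▸ ((convex_convexHull ℝ V).is_linear_image (lin B)).interior
  have ho : IsOpen (⋂ v ∈ V, (fun d : ℝ => d • ![(A.mulVec v) 0, (A.mulVec v) 1] + w) ⁻¹' U) :=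
    hV.isOpen_biInter fun v _ => Uo.preimage (by fun_prop)
  have hm : c ∈ ⋂ v ∈ V, (fun d : ℝ => d • ![(A.mulVec v) 0, (A.mulVec v) 1] + w) ⁻¹' U :=
    Set.mem_iInter₂.2 fun v hv => h ⟨v, subset_convexHull ℝ V hv, rfl⟩
  obtain ⟨ε, hε, hb⟩ := Metric.isOpen_iff.1 ho c hm
  have hd := Set.mem_iInter₂.1 (hb (show c + ε / 2 ∈ Metric.ball c ε by
    rw [Metric.mem_ball, Real.dist_eq, abs_lt]; constructor <;> linarith))
  refine ⟨c + ε / 2, ⟨by linarith, A, hA, B, hB, w, ?_⟩, by linarith⟩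
  rw [← hU, Set.image_subset_iff]
  refine convexHull_min (fun v hv => hd v hv) ?_
  intro x hx y hy a b ha hb hab
  have := Uc hx hy ha hb hab
  simp only [Set.mem_preimage, (lin A).map_add, (lin A).map_smul]
  convert this using 1
  have e : w = a • w + b • w := by rw [← add_smul, hab, one_smul]
  conv_lhs => rw [e]
  module

theorem key (C : Set V3) {r : ℝ} (hr : 0 < r) (l : ℝ) (a : V3) (g R₁ R₂ : M3) (t w : Fin 2 → ℝ)
    (hw : r • w + proj (R₂ *ᵥ a) = l • proj (R₁ *ᵥ a) + t) :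
    (fun y => y + t) '' (proj '' ((fun x => l • R₁ *ᵥ x) '' ((fun x => r • g *ᵥ x + a) '' C))) ⊆
      interior (proj '' ((fun x => R₂ *ᵥ x) '' ((fun x => r • g *ᵥ x + a) '' C))) ↔
    (fun x : Fin 3 → ℝ => l • ![((R₁ * g).mulVec x) 0, ((R₁ * g).mulVec x) 1] + w) '' C ⊆
      interior ((fun x : Fin 3 → ℝ => ![((R₂ * g).mulVec x) 0, ((R₂ * g).mulVec x) 1]) '' C) := by
  let h : (Fin 2 → ℝ) ≃ₜ (Fin 2 → ℝ) :=
    (Homeomorph.smulOfNeZero r hr.ne').trans (Homeomorph.addRight (proj (R₂ *ᵥ a)))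
  have hh : ∀ y, h y = r • y + proj (R₂ *ᵥ a) := fun y => rfl
  have e1 : proj '' ((fun x => R₂ *ᵥ x) '' ((fun x => r • g *ᵥ x + a) '' C)) =
      h '' ((fun x : Fin 3 → ℝ => ![((R₂ * g).mulVec x) 0, ((R₂ * g).mulVec x) 1]) '' C) := by
    simp only [Set.image_image]
    refine Set.image_congr fun x _ => ?_
    rw [hh, ← Matrix.mulVec_mulVec]
    ext i
    fin_cases i <;> simp [proj, Matrix.mulVec_add, Matrix.mulVec_smul]
  have e2 : (fun y => y + t) '' (proj '' ((fun x => l • R₁ *ᵥ x) ''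
      ((fun x => r • g *ᵥ x + a) '' C))) = h '' ((fun x : Fin 3 → ℝ =>
        l • ![((R₁ * g).mulVec x) 0, ((R₁ * g).mulVec x) 1] + w) '' C) := by
    simp only [Set.image_image]
    refine Set.image_congr fun x _ => ?_
    rw [hh, ← Matrix.mulVec_mulVec, smul_add, add_assoc, hw]
    ext i
    fin_cases i <;>
      simp [proj, Matrix.mulVec_add, Matrix.mulVec_smul, Matrix.vecHead, Matrix.vecTail] <;> ring
  rw [e1, e2, ← h.image_interior, Set.image_subset_image_iff h.injective]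

theorem passes_iff {V K : Set V3} (hneg : ∀ v ∈ V, -v ∈ V) (hK : IsSimilarHull V K) {l : ℝ}
    (hl : 0 < l) : Passes l K ↔ l ∈ Pass V := by
  obtain ⟨r, hr, g₀, hg₀, a, rfl⟩ := hK
  obtain ⟨g, hg, e⟩ : ∃ g ∈ Matrix.specialOrthogonalGroup (Fin 3) ℝ,
      (fun x => r • g₀ *ᵥ x + a) '' convexHull ℝ V = (fun x => r • g *ᵥ x + a) '' convexHull ℝ V := by
    have h1 : g₀ᵀ * g₀ = 1 := (Matrix.mem_orthogonalGroup_iff' _ _).1 hg₀
    have h2 : g₀.det * g₀.det = 1 := by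
      have := congrArg Matrix.det h1
      rwa [Matrix.det_mul, Matrix.det_transpose, Matrix.det_one] at this
    rcases mul_self_eq_one_iff.1 h2 with h3 | h3
    · exact ⟨g₀, Matrix.mem_specialOrthogonalGroup_iff.2 ⟨hg₀, h3⟩, rfl⟩
    · refine ⟨-g₀, Matrix.mem_specialOrthogonalGroup_iff.2 ⟨?_, ?_⟩, ?_⟩
      · rw [Matrix.mem_orthogonalGroup_iff', Matrix.transpose_neg, neg_mul_neg, h1]
      · rw [Matrix.det_neg, h3]; norm_num
      · have hV : -V = V := by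
          ext v
          exact ⟨fun h => by simpa using hneg _ h, fun h => hneg v h⟩
        have hC : ∀ x ∈ convexHull ℝ V, -x ∈ convexHull ℝ V := by
          intro x hx
          rw [← hV, convexHull_neg]
          simpa using hx
        ext y
        constructor
        · rintro ⟨x, hx, rfl⟩
          exact ⟨-x, hC x hx, by simp [Matrix.neg_mulVec, Matrix.mulVec_neg]⟩
        · rintro ⟨x, hx, rfl⟩
          exact ⟨-x, hC x hx, by simp [Matrix.neg_mulVec, Matrix.mulVec_neg]⟩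
  rw [e]
  constructor
  · rintro ⟨R₁, h₁, R₂, h₂, t, h⟩
    refine ⟨hl, R₁ * g, mul_mem h₁ hg, R₂ * g, mul_mem h₂ hg,
      r⁻¹ • (l • proj (R₁ *ᵥ a) + t - proj (R₂ *ᵥ a)), (key _ hr l a g R₁ R₂ t _ ?_).1 h⟩
    rw [smul_smul, mul_inv_cancel₀ hr.ne', one_smul, sub_add_cancel]
  · rintro ⟨-, A, hA, B, hB, w, h⟩
    have h1 := orth_of_mem hg
    have hg' : gᵀ ∈ Matrix.specialOrthogonalGroup (Fin 3) ℝ := by
      refine Matrix.mem_specialOrthogonalGroup_iff.2 ⟨?_, ?_⟩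
      · rw [Matrix.mem_orthogonalGroup_iff, Matrix.transpose_transpose, h1]
      · rw [Matrix.det_transpose]; exact (Matrix.mem_specialOrthogonalGroup_iff.1 hg).2
    refine ⟨A * gᵀ, mul_mem hA hg', B * gᵀ, mul_mem hB hg',
      r • w + proj ((B * gᵀ) *ᵥ a) - l • proj ((A * gᵀ) *ᵥ a),
      (key _ hr l a g _ _ _ w (by abel)).2 ?_⟩
    rw [Matrix.mul_assoc, Matrix.mul_assoc, h1, Matrix.mul_one, Matrix.mul_one]
    exact h

theorem cyc_I : cyc 1 Real.goldenRatio = SI := by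
  ext v
  simp only [cyc, SI, Set.mem_insert_iff, Set.mem_singleton_iff, mul_one, Set.mem_ofPred_eq]
  exact ⟨fun ⟨s, hs, t, ht, h⟩ => ⟨s, t, hs, ht, h⟩, fun ⟨s, t, hs, ht, h⟩ => ⟨s, hs, t, ht, h⟩⟩

theorem cyc_D : cube ∪ cyc Real.goldenRatio⁻¹ Real.goldenRatio = SD := by
  ext v
  simp only [cyc, cube, SD, Set.mem_insert_iff, Set.mem_singleton_iff, Set.mem_ofPred_eq,
    Set.mem_union, div_eq_mul_inv]
  constructor
  · rintro (h | ⟨s, hs, t, ht, h⟩)
    · refine ⟨v 0, v 1, v 2, h 0, h 1, h 2, Or.inl ?_⟩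
      ext i
      fin_cases i <;> rfl
    · exact ⟨1, s, t, Or.inl rfl, hs, ht, Or.inr h⟩
  · rintro ⟨r, s, t, hr, hs, ht, rfl | h⟩
    · left
      intro i
      fin_cases i
      exacts [hr, hs, ht]
    · exact Or.inr ⟨s, hs, t, ht, h⟩

theorem set_eq {V K : Set V3} (hfin : V.Finite) (hneg : ∀ v ∈ V, -v ∈ V)
    (hu : ∀ c ∈ Pass V, c ≤ nu) (hl : ∀ c, 0 < c → c < nu → c ∈ Pass V)
    (hK : IsSimilarHull V K) : {l : ℝ | 0 < l ∧ Passes l K} = Set.Ioo 0 nu := by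
  ext l
  constructor
  · rintro ⟨h0, h⟩
    obtain ⟨c, hc, hlc⟩ := pass_open hfin ((passes_iff hneg hK h0).1 h)
    exact ⟨h0, hlc.trans_le (hu c hc)⟩
  · rintro ⟨h0, h⟩
    exact ⟨h0, (passes_iff hneg hK h0).2 (hl l h0 h)⟩

/-- The root exists and is unique, and `l K` passes through `K` exactly when `l` is below it. -/
theorem result : ∃ ν₀ : ℝ, {x ∈ Set.Icc (1.01 : ℝ) 1.02 | P x = 0} = {ν₀} ∧
    ∀ K : Set (Fin 3 → ℝ), IsIcosahedron K ∨ IsDodecahedron K →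
      {l : ℝ | 0 < l ∧ Passes l K} = Set.Ioo 0 ν₀ := by
  have h1 := nu_lb
  have h2 := nu_ub
  have hn : nu ∈ Set.Icc (1.01 : ℝ) 1.02 := ⟨by linarith, by linarith⟩
  have hr : P nu = 0 := nu_root
  refine ⟨nu, ?_, ?_⟩
  · ext x
    exact ⟨fun ⟨hx, h⟩ => root_unique hx hn (h.trans hr.symm), fun h => h ▸ ⟨hn, hr⟩⟩
  · rintro K (hK | hK)
    · obtain ⟨hfin, hneg, hb, -⟩ := baseOK_sound hVI baseI
      exact set_eq hfin hneg (fun c hc => upperI hVI hc) (fun c h0 h1 => lowerI hneg hb h0 h1)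
        (cyc_I ▸ hK)
    · obtain ⟨hfin, hneg, hb, -⟩ := baseOK_sound hVD baseD
      exact set_eq hfin hneg (fun c hc => upperD hVD hc) (fun c h0 h1 => lowerD hneg hb h0 h1)
        (cyc_D ▸ hK)

end Pool.Agent.Results.MP_5fb7d4_co.Exact
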